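import Pool.Agent.H436Z.MilDefs

set_option autoImplicit false

open scoped ENNReal Topology ContDiff NNReal
open Set Filter Metric Pool.Agent.H436Z.Mil

namespace Pool.Agent.H55Z.Mil

theorem idist_le (f : ℂ → E3) (U : Set ℂ) {p q : ℂ} (γ : ℝ → ℂ) (h1 : ContDiffOn ℝ 1 γ (Icc 0 1))
    (h2 : MapsTo γ (Icc 0 1) U) (h3 : γ 0 = p) (h4 : γ 1 = q) :
    idist f U p q ≤ eVariationOn (f ∘ γ) (Icc 0 1) := by
  unfold idist
  exact iInf_le_of_le γ (iInf_le_of_le h1 (iInf_le_of_le h2 (iInf_le_of_le h3 (iInf_le _ h4))))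

theorem edist_le_idist (f : ℂ → E3) (U : Set ℂ) (p q : ℂ) : edist (f p) (f q) ≤ idist f U p q := by
  unfold idist
  refine le_iInf fun γ => le_iInf fun _ => le_iInf fun _ => le_iInf fun h3 => le_iInf fun h4 => ?_
  have := eVariationOn.edist_le (f ∘ γ) (s := Icc (0:ℝ) 1) (x := 0) (y := 1)
    (by simp) (by simp)
  simpa [h3, h4] using this

theorem glue_le (f : ℂ → E3) (U : Set ℂ) {p q r : ℂ} (γ₁ γ₂ : ℝ → ℂ)
    (a1 : ContDiffOn ℝ 1 γ₁ (Icc 0 1)) (a2 : MapsTo γ₁ (Icc 0 1) U) (a3 : γ₁ 0 = p)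
    (a4 : γ₁ 1 = q) (b1 : ContDiffOn ℝ 1 γ₂ (Icc 0 1)) (b2 : MapsTo γ₂ (Icc 0 1) U)
    (b3 : γ₂ 0 = q) (b4 : γ₂ 1 = r) :
    idist f U p r ≤ eVariationOn (f ∘ γ₁) (Icc 0 1) + eVariationOn (f ∘ γ₂) (Icc 0 1) := by
  set φ₁ : ℝ → ℝ := fun t => Real.smoothTransition (2 * t) with hφ₁
  set φ₂ : ℝ → ℝ := fun t => Real.smoothTransition (2 * t - 1) with hφ₂
  have m1 : ∀ s : Set ℝ, MapsTo φ₁ s (Icc 0 1) := fun s t _ =>
    ⟨Real.smoothTransition.nonneg _, Real.smoothTransition.le_one _⟩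
  have m2 : ∀ s : Set ℝ, MapsTo φ₂ s (Icc 0 1) := fun s t _ =>
    ⟨Real.smoothTransition.nonneg _, Real.smoothTransition.le_one _⟩
  have c1 : ContDiff ℝ 1 φ₁ :=
    (Real.smoothTransition.contDiff (n := 1)).comp (by fun_prop)
  have c2 : ContDiff ℝ 1 φ₂ :=
    (Real.smoothTransition.contDiff (n := 1)).comp (by fun_prop)
  have mo1 : Monotone φ₁ := fun x y h => Real.smoothTransition.monotone (by linarith)
  have mo2 : Monotone φ₂ := fun x y h => Real.smoothTransition.monotone (by linarith)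
  set γ : ℝ → ℂ := fun t => γ₁ (φ₁ t) + γ₂ (φ₂ t) - q with hγ
  have e1 : ∀ t, t ≤ 1 / 2 → γ t = γ₁ (φ₁ t) := by
    intro t ht
    have : φ₂ t = 0 := Real.smoothTransition.zero_of_nonpos (by linarith)
    simp [hγ, this, b3]
  have e2 : ∀ t, 1 / 2 ≤ t → γ t = γ₂ (φ₂ t) := by
    intro t ht
    have : φ₁ t = 1 := Real.smoothTransition.one_of_one_le (by linarith)
    simp [hγ, this, a4]
  have hc : ContDiffOn ℝ 1 γ (Icc 0 1) :=
    ((a1.comp c1.contDiffOn (m1 _)).add (b1.comp c2.contDiffOn (m2 _))).sub contDiffOn_const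
  have hm : MapsTo γ (Icc 0 1) U := by
    intro t _
    rcases le_total t (1 / 2) with h | h
    · rw [e1 t h]; exact a2 (m1 univ (mem_univ t))
    · rw [e2 t h]; exact b2 (m2 univ (mem_univ t))
  have h0 : γ 0 = p := by
    rw [e1 0 (by norm_num)]
    have : φ₁ 0 = 0 := Real.smoothTransition.zero_of_nonpos (by norm_num)
    rw [this, a3]
  have h1 : γ 1 = r := by
    rw [e2 1 (by norm_num)]
    have : φ₂ 1 = 1 := Real.smoothTransition.one_of_one_le (by norm_num)
    rw [this, b4]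
  refine (idist_le f U γ hc hm h0 h1).trans ?_
  have hs := eVariationOn.Icc_add_Icc (f ∘ γ) (s := univ) (a := (0:ℝ)) (b := 1 / 2) (c := 1)
    (by norm_num) (by norm_num) (mem_univ _)
  simp only [univ_inter] at hs
  rw [← hs]
  refine add_le_add ?_ ?_
  · have : eVariationOn (f ∘ γ) (Icc 0 (1 / 2)) = eVariationOn ((f ∘ γ₁) ∘ φ₁) (Icc 0 (1 / 2)) :=
      eVariationOn.eq_of_eqOn fun t ht => by simp [e1 t ht.2]
    rw [this]
    exact eVariationOn.comp_le_of_monotoneOn _ _ (mo1.monotoneOn _) (m1 _)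
  · have : eVariationOn (f ∘ γ) (Icc (1 / 2) 1) = eVariationOn ((f ∘ γ₂) ∘ φ₂) (Icc (1 / 2) 1) :=
      eVariationOn.eq_of_eqOn fun t ht => by simp [e2 t ht.1]
    rw [this]
    exact eVariationOn.comp_le_of_monotoneOn _ _ (mo2.monotoneOn _) (m2 _)

theorem idist_triangle (f : ℂ → E3) (U : Set ℂ) (p q r : ℂ) :
    idist f U p r ≤ idist f U p q + idist f U q r := by
  conv_rhs => unfold idist
  simp only [ENNReal.iInf_add, ENNReal.add_iInf]
  refine le_iInf fun γ₂ => le_iInf fun a1 => le_iInf fun a2 => le_iInf fun a3 => le_iInf fun a4 =>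
    le_iInf fun γ₁ => le_iInf fun b1 => le_iInf fun b2 => le_iInf fun b3 => le_iInf fun b4 => ?_
  exact glue_le f U γ₁ γ₂ b1 b2 b3 b4 a1 a2 a3 a4

/-- Segment bound. -/
theorem idist_le_seg (f : ℂ → E3) (U : Set ℂ) {p : ℂ} {s : ℝ} {K : ℝ≥0} (hU : ball p s ⊆ U)
    (hK : LipschitzOnWith K f (ball p s)) {q : ℂ} (hq : q ∈ ball p s) :
    idist f U q p ≤ K * edist q p := by
  have hs : 0 < s := pos_of_mem_ball hq
  set γ : ℝ → ℂ := fun t => AffineMap.lineMap q p t with hγ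
  have hm : MapsTo γ (Icc 0 1) (ball p s) := fun t ht =>
    (convex_ball p s).lineMap_mem hq (mem_ball_self hs) ht
  have hc : ContDiffOn ℝ 1 γ (Icc 0 1) := by
    have : γ = fun t : ℝ => t • (p - q) + q := by
      funext t; simp [hγ, AffineMap.lineMap_apply]
    rw [this]
    exact ContDiff.contDiffOn (by fun_prop)
  refine (idist_le f U γ hc (hm.mono_right hU) (by simp [hγ]) (by simp [hγ])).trans ?_
  refine (hK.comp_eVariationOn_le hm).trans ?_
  gcongr
  have hl : LipschitzOnWith (nndist q p) γ univ :=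
    (lipschitzWith_lineMap q p).lipschitzOnWith
  have h2 := hl.comp_eVariationOn_le (g := id) (s := Icc (0:ℝ) 1) (mapsTo_univ _ _)
  have h3 : eVariationOn (id : ℝ → ℝ) (Icc (0:ℝ) 1) ≤ 1 := by
    simp
  calc eVariationOn γ (Icc 0 1) = eVariationOn (γ ∘ id) (Icc 0 1) := rfl
    _ ≤ nndist q p * eVariationOn (id : ℝ → ℝ) (Icc (0:ℝ) 1) := h2
    _ ≤ nndist q p * 1 := by gcongr
    _ = edist q p := by rw [mul_one, edist_nndist]

theorem complete_of_proper (f : ℂ → E3) (hf : ContDiffOn ℝ 1 f (ball 0 1))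
    (hp : ∀ R : ℝ, ∃ r < 1, ∀ z ∈ ball (0:ℂ) 1, r < ‖z‖ → R < ‖f z‖) :
    Complete f (ball 0 1) := by
  intro u hu hC
  obtain ⟨N, hN⟩ := hC 1 one_pos
  obtain ⟨r, hr1, hr⟩ := hp (‖f (u N)‖ + 1)
  have hb : ∀ n, u (n + N) ∈ closedBall (0:ℂ) r := by
    intro n
    rw [mem_closedBall_zero_iff]
    by_contra hcon
    rw [not_le] at hcon
    have h1 := hr _ (hu _) hcon
    have h2 : edist (f (u (n + N))) (f (u N)) < 1 :=
      (edist_le_idist f _ _ _).trans_lt (hN _ (by omega) _ le_rfl)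
    have h3 : dist (f (u (n + N))) (f (u N)) < 1 := by
      rw [edist_dist] at h2
      exact ENNReal.ofReal_lt_one.1 h2
    have h4 := norm_sub_norm_le (f (u (n + N))) (f (u N))
    rw [← dist_eq_norm] at h4
    linarith
  obtain ⟨p, hpc, φ, hφ, hlim⟩ := (isCompact_closedBall (0:ℂ) r).tendsto_subseq hb
  have hp1 : p ∈ ball (0:ℂ) 1 := closedBall_subset_ball hr1 hpc
  refine ⟨p, hp1, ?_⟩
  have hat : ContDiffAt ℝ 1 f p := hf.contDiffAt (isOpen_ball.mem_nhds hp1)
  obtain ⟨K, t, ht, hK⟩ := hat.exists_lipschitzOnWith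
  obtain ⟨s, hs, hst⟩ := Metric.mem_nhds_iff.1 (inter_mem ht (isOpen_ball.mem_nhds hp1))
  have hK' : LipschitzOnWith K f (ball p s) := hK.mono (hst.trans inter_subset_left)
  have hU : ball p s ⊆ ball 0 1 := hst.trans inter_subset_right
  rw [ENNReal.tendsto_atTop_zero]
  intro ε hε
  have hε2 : 0 < ε / 2 := ENNReal.half_pos hε.ne'
  obtain ⟨M, hM⟩ := hC (ε / 2) hε2
  refine ⟨M, fun n hn => ?_⟩
  have l1 : Tendsto (fun k => (K : ℝ≥0∞) * edist (u (φ k + N)) p) atTop (𝓝 0) := by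
    have a : Tendsto (fun k => edist (u (φ k + N)) p) atTop (𝓝 0) :=
      tendsto_iff_edist_tendsto_0.1 hlim
    have := ENNReal.Tendsto.const_mul (a := (K : ℝ≥0∞)) a (Or.inr ENNReal.coe_ne_top)
    simpa using this
  have ev1 : ∀ᶠ k in atTop, (K : ℝ≥0∞) * edist (u (φ k + N)) p < ε / 2 :=
    l1.eventually (gt_mem_nhds hε2)
  have ev2 : ∀ᶠ k in atTop, u (φ k + N) ∈ ball p s := hlim.eventually (ball_mem_nhds p hs)
  have ev3 : ∀ᶠ k in atTop, M ≤ φ k + N :=
    (eventually_ge_atTop M).mono fun k hk => by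
      have := hφ.id_le k
      simp only [id] at this
      omega
  obtain ⟨k, k1, k2, k3⟩ := (ev1.and (ev2.and ev3)).exists
  calc idist f (ball 0 1) (u n) p
      ≤ idist f (ball 0 1) (u n) (u (φ k + N)) + idist f (ball 0 1) (u (φ k + N)) p :=
        idist_triangle _ _ _ _ _
    _ ≤ ε / 2 + ε / 2 :=
        add_le_add (hM _ hn _ k3).le ((idist_le_seg f _ hU hK' k2).trans k1.le)
    _ = ε := ENNReal.add_halves ε

theorem exists_beta (δ : ℝ) (hδ : 0 < δ) : ∃ (β : ℝ → ℝ) (t₀ : ℝ), ContDiff ℝ ∞ β ∧ |t₀| ≤ δ ∧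
    (∀ t ≤ -δ, β t = 0) ∧ (∀ t ≥ δ, β t = t - t₀) ∧ (∀ t, |β t| ≤ |t| + δ) ∧
    (∀ t, 0 ≤ deriv β t ∧ deriv β t ≤ 1) ∧ (∀ t, 0 ≤ deriv (deriv β) t) ∧
    (∀ t, δ ≤ |t| → deriv (deriv β) t = 0) ∧
    (∀ t, |t| ≤ δ / 2 → 1 / (2 * δ) ≤ deriv (deriv β) t) := by
  let ρ : ContDiffBump (0:ℝ) := ⟨δ / 2, δ, by linarith, by linarith⟩
  have ρc : Continuous ρ := ρ.continuous
  have ρi : ∀ a b, IntervalIntegrable ρ MeasureTheory.volume a b := fun a b =>
    ρc.intervalIntegrable a b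
  have ρ0 : ∀ t, δ ≤ |t| → ρ t = 0 := fun t ht =>
    ρ.zero_of_le_dist (by simpa [ρ, Real.dist_eq] using ht)
  have ρ1 : ∀ t, |t| ≤ δ / 2 → ρ t = 1 := fun t ht =>
    ρ.one_of_mem_closedBall (by simpa [ρ, Real.dist_eq] using ht)
  set F : ℝ → ℝ := fun t => ∫ x in (-δ)..t, ρ x with hF
  have dF : ∀ t, HasDerivAt F (ρ t) t := fun t => (ρc.integral_hasStrictDerivAt _ t).hasDerivAt
  have Fmono : Monotone F := monotone_of_deriv_nonneg (fun t => (dF t).differentiableAt)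
    fun t => by rw [(dF t).deriv]; exact ρ.nonneg
  have Fneg : ∀ t ≤ -δ, F t = 0 := by
    intro t ht
    have : ∫ x in (-δ)..t, ρ x = ∫ x in (-δ)..t, (0:ℝ) := by
      apply intervalIntegral.integral_congr
      intro x hx
      rw [uIcc_of_ge ht] at hx
      exact ρ0 x (by rw [abs_of_nonpos (by linarith [hx.2])]; linarith [hx.2])
    simpa [hF] using this
  set I : ℝ := F δ with hI
  have Fpos : ∀ t ≥ δ, F t = I := by
    intro t ht
    have h1 := intervalIntegral.integral_add_adjacent_intervals (ρi (-δ) δ) (ρi δ t)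
    have : ∫ x in δ..t, ρ x = ∫ x in δ..t, (0:ℝ) := by
      apply intervalIntegral.integral_congr
      intro x hx
      rw [uIcc_of_le ht] at hx
      exact ρ0 x (by rw [abs_of_nonneg (by linarith [hx.1])]; exact hx.1)
    simp only [hI, hF]
    rw [← h1, this]; simp
  have Ipos : 0 < I := by
    apply intervalIntegral.integral_pos (by linarith) ρc.continuousOn (fun x _ => ρ.nonneg)
    exact ⟨0, ⟨by linarith, by linarith⟩, by rw [ρ1 0 (by simp; linarith)]; norm_num⟩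
  have Ile : I ≤ 2 * δ := by
    have : ∫ x in (-δ)..δ, ρ x ≤ ∫ x in (-δ)..δ, (1:ℝ) :=
      intervalIntegral.integral_mono_on (by linarith) (ρi _ _) (by simp) fun x _ => ρ.le_one
    simp only [intervalIntegral.integral_const, smul_eq_mul] at this
    simp only [hI, hF]; linarith
  have F0 : ∀ t, 0 ≤ F t := by
    intro t
    rcases le_total t (-δ) with h | h
    · rw [Fneg t h]
    · rw [← Fneg (-δ) le_rfl]; exact Fmono h
  have F1 : ∀ t, F t ≤ I := by
    intro t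
    rcases le_total t δ with h | h
    · exact Fmono h
    · rw [Fpos t h]
  set G : ℝ → ℝ := fun t => F t / I with hG
  have dG : ∀ t, HasDerivAt G (ρ t / I) t := fun t => (dF t).div_const I
  have Gc : Continuous G := continuous_iff_continuousAt.2 fun t => (dG t).continuousAt
  have G0 : ∀ t, 0 ≤ G t := fun t => div_nonneg (F0 t) Ipos.le
  have G1 : ∀ t, G t ≤ 1 := fun t => (div_le_one Ipos).2 (F1 t)
  have Gi : ∀ a b, IntervalIntegrable G MeasureTheory.volume a b := fun a b =>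
    Gc.intervalIntegrable a b
  set β : ℝ → ℝ := fun t => ∫ x in (-δ)..t, G x with hβ
  have dβ : ∀ t, HasDerivAt β (G t) t := fun t => (Gc.integral_hasStrictDerivAt _ t).hasDerivAt
  have e1 : deriv β = G := funext fun t => (dβ t).deriv
  have e2 : deriv G = fun t => ρ t / I := funext fun t => (dG t).deriv
  have βneg : ∀ t ≤ -δ, β t = 0 := by
    intro t ht
    have : ∫ x in (-δ)..t, G x = ∫ x in (-δ)..t, (0:ℝ) := by
      apply intervalIntegral.integral_congr
      intro x hx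
      rw [uIcc_of_ge ht] at hx
      simp [hG, Fneg x hx.2]
    simpa [hβ] using this
  have βb : ∀ t, -δ ≤ t → 0 ≤ β t ∧ β t ≤ t + δ := by
    intro t ht
    refine ⟨intervalIntegral.integral_nonneg ht fun x _ => G0 x, ?_⟩
    have : ∫ x in (-δ)..t, G x ≤ ∫ x in (-δ)..t, (1:ℝ) :=
      intervalIntegral.integral_mono_on ht (Gi _ _) (by simp) fun x _ => G1 x
    simp only [intervalIntegral.integral_const, smul_eq_mul] at this
    simp only [hβ]; linarith
  refine ⟨β, δ - β δ, ?_, ?_, βneg, ?_, ?_, ?_, ?_, ?_, ?_⟩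
  · rw [contDiff_infty_iff_deriv]
    refine ⟨fun t => (dβ t).differentiableAt, ?_⟩
    rw [e1, contDiff_infty_iff_deriv]
    refine ⟨fun t => (dG t).differentiableAt, ?_⟩
    rw [e2]
    exact ρ.contDiff.div_const I
  · have := βb δ (by linarith)
    rw [abs_le]; constructor <;> linarith [this.1, this.2]
  · intro t ht
    have h1 := intervalIntegral.integral_add_adjacent_intervals (Gi (-δ) δ) (Gi δ t)
    have : ∫ x in δ..t, G x = ∫ x in δ..t, (1:ℝ) := by
      apply intervalIntegral.integral_congr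
      intro x hx
      rw [uIcc_of_le ht] at hx
      simp [hG, Fpos x hx.1, Ipos.ne']
    simp only [intervalIntegral.integral_const, smul_eq_mul] at this
    simp only [hβ]
    rw [← h1, this]; ring
  · intro t
    rcases le_total t (-δ) with h | h
    · rw [βneg t h, abs_zero]; positivity
    · rw [abs_of_nonneg (βb t h).1]
      linarith [(βb t h).2, le_abs_self t]
  · intro t; rw [e1]; exact ⟨G0 t, G1 t⟩
  · intro t; rw [e1, e2]; exact div_nonneg ρ.nonneg Ipos.le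
  · intro t ht; rw [e1, e2]; simp [ρ0 t ht]
  · intro t ht; rw [e1, e2]
    simp only [ρ1 t ht]
    exact one_div_le_one_div_of_le Ipos Ile

end Pool.Agent.H55Z.Mil
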